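import Pool.Agent.Zk38.AP.SIGR

/-!
# Products of few primes in almost all short subintervals of every interval `(x, x + √x)`

Schinzel's conjecture asks for a prime in every interval `(x, x + √x)`, `x ≥ 117`. Here we prove, for ALL large real `x`:
almost all subintervals of length `x ^ η` of `(x, x + √x)`, `η > 0` arbitrary, contain the expected number (up to a constant) of
products of at most five primes; for four primes the same holds for subintervals of length `x ^ 0.037`, and for three primes
for subintervals of length `x ^ 0.225`. There is a power saving in the number of exceptions, and in all subintervals which are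
not exceptional every dense set of these numbers contains progressions of every length with a common difference at most a
power of `log x`. All this is proved for all arithmetic progressions with coprime first term and difference in `[x, 2 x]` in
place of the interval, uniformly.

Proof. The variance of the remainder term of the weighted sieve in short intervals (`Y882/SI/Eng` in the starting files,
uniform in the polynomial), Richert's weights, Szemerédi's theorem relative to the values without small prime factors
(`Zk41/PY`, helper41). The case of the progressions `2 p k + 1` is due to helper48 (`Zk48/AP/SI`), whose proof is adapted here to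
all progressions (`Zk38/AP/SIG`).
-/

set_option autoImplicit false

namespace Pool.Agent.Results.MP_b8a134_nt.AlmostAllSubintervals

open Filter Finset

/-- Richert's constant `Λ_r = 1 + log ((3 ^ r + 1) / 4) / log 3 = r + 1 - log (4 / (1 + 3 ^ (-r))) / log 3`:
`Λ_3 = 2.771...`, `Λ_4 = 3.749...`, `Λ_5 = 4.741...`. -/
noncomputable def Lambda (r : ℕ) : ℝ := 1 + Real.log ((3 ^ r + 1) / 4) / Real.log 3

open Classical in
/-- The indices `1 ≤ k ≤ H` for which `b + q k` is a product of at most `r` primes (with multiplicity), all of them at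
least `z`. -/
noncomputable def goodTerms (r : ℕ) (z : ℝ) (q b H : ℕ) : Finset ℕ :=
  (Icc 1 H).filter (fun k => (b + q * k).primeFactorsList.length ≤ r ∧
    ∀ p : ℕ, p.Prime → p ∣ b + q * k → z ≤ p)

/-- The finite set `M` has at least `m` elements, and every subset of `M` which contains a proportion at least `κ` of the
elements of `M` contains an arithmetic progression of length `l` with common difference at most `D`. -/
def IsRich (m : ℝ) (l : ℕ) (κ D : ℝ) (M : Finset ℕ) : Prop :=
  m ≤ M.card ∧ ∀ S ⊆ M, κ * M.card ≤ S.card → ∃ y d : ℕ, 1 ≤ d ∧ (d : ℝ) ≤ D ∧ ∀ i < l, y + i * d ∈ S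

open Classical in
/-- The number of the `N` with `1 ≤ N ≤ X` for which the set of the good terms among the `H` terms after `a + q N` of the
progression `a + q k` is not rich. -/
noncomputable def exceptions (r : ℕ) (z m : ℝ) (l : ℕ) (κ D : ℝ) (q a X H : ℕ) : ℕ :=
  ((Icc 1 X).filter (fun N => ¬ IsRich m l κ D (goodTerms r z q (a + q * N) H))).card

/-- **Theorem.** Let `r ≥ 1`, `θ > 0`, `0 < t ≤ 4 / 5`, `1 < θ t Λ_r` and `ε > 0`. There is `c > 0`, and for all `l` and all `κ > 0`
there is `B`, such that for all large real `x`, for every progression `a + q, a + 2 q, …, a + (X + H) q` with `gcd (a, q) = 1`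
that is contained in `[x, 2 x]`, where `X ≥ x ^ θ` and `X ^ ε ≤ H ≤ X`, the following holds for all but at most
`X ^ (max(1, 2 t) + ε) / H + X ^ (1 - t / 4 + ε)` of the integers `1 ≤ N ≤ X`: among the `H` terms `a + q (N + k)`, `1 ≤ k ≤ H`, at
least `c (q / φ(q)) H / log x` are products of at most `r` primes `≥ x ^ (θ t / 4)`, and every set which contains a proportion
at least `κ` of these `k` contains an arithmetic progression of length `l` with difference at most `(log x) ^ B`.

By the last line `(r, θ, t) = (5, 0.425, 1 / 2)`, `(4, 0.499, 0.536)`, `(3, 0.499, 0.724)` are allowed. -/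
theorem result :
    (∀ (r : ℕ) (θ t ε : ℝ), 1 ≤ r → 0 < θ → 0 < t → t ≤ 4 / 5 → 1 < θ * (t * Lambda r) → 0 < ε →
      ∃ c : ℝ, 0 < c ∧ ∀ (l : ℕ) (κ : ℝ), 0 < κ → ∃ B : ℕ, ∀ᶠ x : ℝ in atTop,
        ∀ q a X H : ℕ, 0 < q → Nat.Coprime a q → x ≤ ((a + q : ℕ) : ℝ) → ((a + q * (X + H) : ℕ) : ℝ) ≤ 2 * x → x ^ θ ≤ X →
          (X : ℝ) ^ ε ≤ H → H ≤ X →
          (exceptions r (x ^ (θ * t / 4)) (c * (((q : ℝ) / q.totient) * (H / Real.log x))) l κ
            (Real.log x ^ B) q a X H : ℝ) ≤
            (X : ℝ) ^ (max 1 (2 * t) + ε) / H + (X : ℝ) ^ (1 - t / 4 + ε)) ∧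
    1 < 0.425 * (1 / 2 * Lambda 5) ∧ 1 < 0.499 * (0.536 * Lambda 4) ∧ 1 < 0.499 * (0.724 * Lambda 3) := by
  classical
  have h3 : 0 < Real.log 3 := Real.log_pos (by norm_num)
  refine ⟨fun r θ t ε hr hθ ht0 ht h hε => ?_, ?_, ?_, ?_⟩
  · obtain ⟨c, hc, hmain⟩ := Pool.Agent.Zk38.AP.realSIG r hr θ t ε hθ ht0 ht h hε
    refine ⟨c, hc, fun l κ hκ => ?_⟩
    obtain ⟨B, hB⟩ := hmain l κ hκ
    refine ⟨B, ?_⟩
    filter_upwards [hB] with x hx q a X H hq hqa _ hsz hX hXε hHX
    refine le_trans (le_of_eq ?_) (hx q a X H hq hqa hsz hX hXε hHX)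
    unfold exceptions IsRich goodTerms Pool.Agent.Zk38.AP.Ric Pool.Agent.Zk38.AP.RG
    congr
  · have h1 : 26 * Real.log 3 ≤ 7 * Real.log 61 := by
      have h2 : Real.log ((3 : ℝ) ^ 26) ≤ Real.log ((61 : ℝ) ^ 7) := Real.log_le_log (by norm_num) (by norm_num)
      rw [Real.log_pow, Real.log_pow] at h2
      push_cast at h2
      exact h2
    have h2 : (26 / 7 : ℝ) ≤ Real.log ((3 ^ 5 + 1) / 4) / Real.log 3 := by
      rw [le_div_iff₀ h3, show ((3 : ℝ) ^ 5 + 1) / 4 = 61 by norm_num]
      linarith
    unfold Lambda
    linarith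
  · have h1 : 151 * Real.log 3 ≤ 55 * Real.log (41 / 2) := by
      have h2 : Real.log ((3 : ℝ) ^ 151) ≤ Real.log ((41 / 2 : ℝ) ^ 55) := Real.log_le_log (by norm_num) (by norm_num)
      rw [Real.log_pow, Real.log_pow] at h2
      push_cast at h2
      exact h2
    have h2 : (151 / 55 : ℝ) ≤ Real.log ((3 ^ 4 + 1) / 4) / Real.log 3 := by
      rw [le_div_iff₀ h3, show ((3 : ℝ) ^ 4 + 1) / 4 = 41 / 2 by norm_num]
      linarith
    unfold Lambda
    linarith
  · have h1 : 1 + (131 : ℝ) / 74 ≤ Lambda 3 := Pool.Agent.K3h19.RV.lam_three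
    linarith

end Pool.Agent.Results.MP_b8a134_nt.AlmostAllSubintervals
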