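import Pool.Agent.Zk66.Lin

/-!
# Szemerédi's theorem relative to the numbers with at most three prime factors in every interval `(x, x + √x)`

Q1 asks for a prime in `(x, x + √x)` for every real `x ≥ 117`. The results for primes known so far have exceptional `x`. Here: for
every real `x ≥ x₀` the interval `(x, x + √x)`, and each of its subintervals `(a, b)` of length at least `x ^ 0.361`, contains at least
`c (b - a) / log x` integers with at most three prime factors, all of them at least `x ^ (1 / (4 Λ_3)) = x ^ 0.0902…`, every subset of at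
least the proportion `κ` of these integers contains an arithmetic progression of length `l` whose difference is at most a power of
`log x`, and so does every set of at least `κ (b - a) / log x` integers of the interval without prime factors below `x ^ ρ`, for example
every such set of primes. The same holds for two prime factors and intervals of length `x ^ 0.546`, and in general for at most `r` prime
factors and intervals of length `x ^ θ`, `θ > 1 / Λ_r`, where `Λ_r` is Richert's constant; since `Λ_r` tends to infinity there is such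
an `r` for every `θ > 0`.

Proof. The lower bound is the linear sieve with Richert's weights, adapted from the text of helper48 for the progressions `2 k p + 1`
(`Agent/Zk48/AP`). The progressions come from the theorem of helper41 (`Agent/Zk41/PY`, Szemerédi's theorem relative to the integers at
which a polynomial has no small prime factors, uniformly in the coefficients and the position of the interval), used with the
polynomial `X`. The new part is `Agent/Zk66/LinLow` and `Agent/Zk66/Lin`.
-/

set_option autoImplicit false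

namespace Pool.Agent.Results.MP_b8a134_nt.AlmostPrimesEveryInterval

open Pool.Agent.Zk66.Lin
open Pool.Agent.K3h19.RV (Lam lam_two lam_three)

/-- Richert's constant `Λ_r = r + 1 - log (4 / (1 + 3 ^ (-r))) / log 3`. -/
noncomputable def Lambda (r : ℕ) : ℝ := r + 1 - Real.log (4 / (1 + 3 ^ (-(r : ℝ)))) / Real.log 3

/-- `S` contains a progression `n, n + d, …, n + (l - 1) d` with difference `1 ≤ d ≤ D`. -/
def HasAP (l : ℕ) (D : ℝ) (S : Set ℕ) : Prop := ∃ n d : ℕ, 1 ≤ d ∧ (d : ℝ) ≤ D ∧ ∀ i < l, n + i * d ∈ S

/-- the integers `n` with `a < n < b` all of whose prime factors are at least `z` -/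
def Rough (z a b : ℝ) : Set ℕ := {n | a < n ∧ (n : ℝ) < b ∧ ∀ p : ℕ, p.Prime → p ∣ n → z ≤ p}

/-- the elements of `Rough z a b` with at most `r` prime factors (counted with multiplicity) -/
def AlmostPrimes (r : ℕ) (z a b : ℝ) : Set ℕ := {n ∈ Rough z a b | n.primeFactorsList.length ≤ r}

lemma lam_eq (r : ℕ) : Lambda r = Lam r := by
  unfold Lambda Lam
  have h3 : 0 < Real.log 3 := Real.log_pos (by norm_num)
  have h3r : (0 : ℝ) < 3 ^ r := by positivity
  have e1 : (3 : ℝ) ^ (-(r : ℝ)) = (3 ^ r)⁻¹ := by
    rw [Real.rpow_neg (by norm_num), Real.rpow_natCast]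
  have e2 : (4 : ℝ) / (1 + (3 ^ r)⁻¹) = 3 ^ r / ((3 ^ r + 1) / 4) := by
    field_simp
  rw [e1, e2, Real.log_div h3r.ne' (by positivity), Real.log_pow]
  field_simp
  ring

/-- **Partial answer to Q1** (almost primes, every `x`). First: `1 / Λ_3 < 0.361` and `1 / Λ_2 < 0.546`. Second: let `r ≥ 1` and
`1 / Λ_r < θ`. There is a `c > 0` such that for all `l` and all `κ, ρ > 0` there are `B` and `x₀` with the following properties for
all real `x ≥ x₀` and all real `a, b` with `x ≤ a`, `b ≤ 2 x` and `b - a ≥ x ^ θ`. The interval `(a, b)` contains at least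
`c (b - a) / log x` integers with at most `r` prime factors, all of them `≥ x ^ (1 / (4 Λ_r))`; every subset of at least the
proportion `κ` of these integers contains a progression of length `l` and difference at most `(log x) ^ B`; and so does every set of at
least `κ (b - a) / log x` integers of `(a, b)` without prime factors below `x ^ ρ`. For `r = 3` and `θ = 0.361` the intervals `(a, b)`
include `(x, x + √x)` and all its subintervals of length at least `x ^ 0.361`. -/
theorem result :
    (1 < 0.361 * Lambda 3 ∧ 1 < 0.546 * Lambda 2) ∧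
    ∀ (r : ℕ) (θ : ℝ), 1 ≤ r → 1 < θ * Lambda r → ∃ c : ℝ, 0 < c ∧
      ∀ (l : ℕ) (κ ρ : ℝ), 0 < κ → 0 < ρ → ∃ B : ℕ, ∃ x₀ : ℝ, ∀ x : ℝ, x₀ ≤ x →
        ∀ a b : ℝ, x ≤ a → b ≤ 2 * x → x ^ θ ≤ b - a →
          c * ((b - a) / Real.log x) ≤ ((AlmostPrimes r (x ^ (1 / (4 * Lambda r))) a b).ncard : ℝ) ∧
          (∀ S : Set ℕ, S ⊆ AlmostPrimes r (x ^ (1 / (4 * Lambda r))) a b →
            κ * ((AlmostPrimes r (x ^ (1 / (4 * Lambda r))) a b).ncard : ℝ) ≤ (S.ncard : ℝ) →
            HasAP l (Real.log x ^ B) S) ∧
          (∀ S : Set ℕ, S ⊆ Rough (x ^ ρ) a b → κ * ((b - a) / Real.log x) ≤ (S.ncard : ℝ) →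
            HasAP l (Real.log x ^ B) S) := by
  refine ⟨⟨?_, ?_⟩, ?_⟩
  · rw [lam_eq]
    have := lam_three
    norm_num at this ⊢
    linarith
  · rw [lam_eq]
    have := lam_two
    norm_num at this ⊢
    linarith
  intro r θ hr h
  simp_rw [lam_eq] at h ⊢
  have hL1 := Pool.Agent.Zk48.AP.Lam_pos r hr
  have hL0 : 0 < Lam r := by linarith
  have hθ : 0 < θ := by
    by_contra hn
    push Not at hn
    have := mul_nonpos_of_nonpos_of_nonneg hn hL0.le
    linarith
  obtain ⟨c, hc, X₁, h1⟩ := low_R r hr θ hθ h
  refine ⟨c, hc, fun l κ ρ hκ hρ => ?_⟩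
  obtain ⟨B₂, X₂, h2⟩ := dense_R l θ (κ * c) (1 / (4 * Lam r)) hθ (by positivity) (by positivity)
  obtain ⟨B₃, X₃, h3⟩ := dense_R l θ κ ρ hθ hκ hρ
  refine ⟨B₂ + B₃, max (max X₁ X₂) (max X₃ (Real.exp 1)), fun x hx a b ha hb hab => ?_⟩
  have y1 : X₁ ≤ x := ((le_max_left _ _).trans (le_max_left _ _)).trans hx
  have y2 : X₂ ≤ x := ((le_max_right _ _).trans (le_max_left _ _)).trans hx
  have y3 : X₃ ≤ x := ((le_max_left _ _).trans (le_max_right _ _)).trans hx
  have y4 : Real.exp 1 ≤ x := ((le_max_right _ _).trans (le_max_right _ _)).trans hx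
  have hlog : 1 ≤ Real.log x := by
    rw [Real.le_log_iff_exp_le ((Real.exp_pos 1).trans_le y4)]
    exact y4
  have k1 := h1 x y1 a b ha hb hab
  refine ⟨k1, fun S hS hSc => ?_, fun S hS hSc => ?_⟩
  · obtain ⟨n, d, hd1, hd2, hd3⟩ := h2 x y2 a b ha hb hab S (fun n hn => (hS hn).1) (by
      refine le_trans ?_ hSc
      rw [mul_assoc]
      exact mul_le_mul_of_nonneg_left k1 hκ.le)
    exact ⟨n, d, hd1, hd2.trans (pow_le_pow_right₀ hlog (by omega)), hd3⟩
  · obtain ⟨n, d, hd1, hd2, hd3⟩ := h3 x y3 a b ha hb hab S hS hSc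
    exact ⟨n, d, hd1, hd2.trans (pow_le_pow_right₀ hlog (by omega)), hd3⟩

end Pool.Agent.Results.MP_b8a134_nt.AlmostPrimesEveryInterval
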