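import Pool.Agent.Zk24.PR.B

set_option autoImplicit false

/-!
# Primes between `x` and `x + √x`, and narrow progressions in dense sets of them

There are `c, δ, C > 0` and a set `E` of reals such that:

* for every `X ≥ 1` the set `E ∩ [1, X]` is covered by at most `C X ^ (0.306 - δ)` intervals of
  length `2 √X`; hence it has measure, and contains a number of integers, at most
  `C X ^ (0.806 - δ)`;
* for every real `x ≥ 1` outside `E`, EVERY interval `(a, b)` inside `(x, x + √x)` of length at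
  least `x ^ (1/2 - δ)` contains at least `c (b - a) / log x` primes;
* (Szemerédi's theorem relative to the primes of these intervals) for all `k` and `ε > 0` there is
  `B` such that for all large `x` outside `E` every set `U` of primes of such an interval `(a, b)`
  that has at least the proportion `ε` of them contains `k` terms of an arithmetic progression with
  common difference at most `(log x) ^ B`.

The estimate for the number of short intervals with few primes (`Pool.Agent.Q278.KT.mainp_half`) and the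
theorem on dense sets of primes in short intervals (`Pool.Agent.X58.IV.primes_ap`) are from the starting
files.
-/

open MeasureTheory

namespace Pool.Agent.Results.MP_b8a134_nt.DenseSubsetsOfPrimes

theorem result : ∃ c δ C : ℝ, 0 < c ∧ 0 < δ ∧ 0 < C ∧ ∃ E : Set ℝ,
    (∀ X : ℝ, 1 ≤ X → ∃ T : Finset ℝ, (T.card : ℝ) ≤ C * X ^ (0.306 - δ) ∧
      E ∩ Set.Icc 1 X ⊆ ⋃ t ∈ T, Set.Icc (t - √X) (t + √X)) ∧
    (∀ X : ℝ, 1 ≤ X → volume (E ∩ Set.Icc 1 X) ≤ ENNReal.ofReal (C * X ^ (0.806 - δ)) ∧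
      ({n : ℕ | (n : ℝ) ∈ E ∩ Set.Icc 1 X}.ncard : ℝ) ≤ C * X ^ (0.806 - δ)) ∧
    (∀ x : ℝ, 1 ≤ x → x ∉ E → ∀ a b : ℝ, x ≤ a → b ≤ x + √x → x ^ (1 / 2 - δ) ≤ b - a →
      c * (b - a) / Real.log x ≤ ({p : ℕ | p.Prime ∧ a < p ∧ (p : ℝ) < b}.ncard : ℝ)) ∧
    ∀ (k : ℕ) (ε : ℝ), 0 < ε → ∃ (B : ℕ) (x₁ : ℝ), ∀ x : ℝ, x₁ ≤ x → x ∉ E →
      ∀ a b : ℝ, x ≤ a → b ≤ x + √x → x ^ (1 / 2 - δ) ≤ b - a → ∀ U : Finset ℕ,
        (∀ p ∈ U, p.Prime ∧ a < p ∧ (p : ℝ) < b) →
        ε * ({p : ℕ | p.Prime ∧ a < p ∧ (p : ℝ) < b}.ncard : ℝ) ≤ U.card →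
        ∃ q d : ℕ, 1 ≤ d ∧ (d : ℝ) ≤ Real.log x ^ B ∧ ∀ j < k, q + j * d ∈ U :=
  Pool.Agent.Zk24.PR.main

end Pool.Agent.Results.MP_b8a134_nt.DenseSubsetsOfPrimes
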